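import Pool.Agent.TH525.PF.Main

/-! # Skew products with circle fibres: the fibre rotations with finitely many attractors are dense -/

set_option autoImplicit false

open Set Filter Topology MeasureTheory

namespace Pool.Agent.Y318.DR

open Pool.Agent.H728R2.OS Pool.Agent.H728R2.FA Pool.Agent.TH525.PF

section Growth

variable {X : Type*} [MeasurableSpace X] (S : Sys X) {m : Measure X}

/-- the points with unbounded differences -/
def Big (a b : ℝ) : Set X := {x | ∀ K : ℕ, ∃ n : ℕ, (K : ℝ) ≤ S.dif a b n x}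

theorem big_meas (a b : ℝ) : MeasurableSet (Big S a b) := by
  have : Big S a b = ⋂ K : ℕ, ⋃ n : ℕ, {x | (K : ℝ) ≤ S.dif a b n x} := by
    ext x; simp [Big]
  rw [this]
  exact MeasurableSet.iInter fun K => MeasurableSet.iUnion fun n =>
    measurableSet_le measurable_const (S.dif_meas a b n)

theorem dif_mono (per : ∀ x y, S.F x (y + 1) = S.F x y + 1) {a b : ℝ} (hab : a ≤ b) (K : ℕ)
    {n n' : ℕ} (hn : n ≤ n') (x : X) (h : (K : ℝ) ≤ S.dif a b n x) : (K : ℝ) ≤ S.dif a b n' x := by
  obtain ⟨k, rfl⟩ := Nat.exists_eq_add_of_le hn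
  rw [Sys.dif] at h ⊢
  rw [Sys.it_add, Sys.it_add, Sys.add_T, Sys.add_T]
  have h1 := S.gap per hab (K : ℤ) k (S.T^[n] x) (w := (S.add a).it n x 0)
    (z := (S.add b).it n x 0) (by push_cast; linarith)
  push_cast at h1
  linarith

theorem big_inv (per : ∀ x y, S.F x (y + 1) = S.F x y + 1) {a b : ℝ} (hab : a ≤ b) :
    S.T ⁻¹' (Big S a b) ⊆ Big S a b := by
  intro x hx K
  obtain ⟨n, hn⟩ := hx (K + 1)
  refine ⟨n + 1, ?_⟩
  have h1 := S.dif_lower per a b n (S.T x) (S.F x 0 + a)
  have h2 : (S.add b).it n (S.T x) (S.F x 0 + a) ≤ (S.add b).it n (S.T x) (S.F x 0 + b) :=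
    (S.add b).it_mono n _ (by linarith)
  rw [Sys.dif, Sys.it_succ', Sys.it_succ']
  simp only [Sys.add_T, Sys.add_F]
  push_cast at hn
  linarith

/-- If the rotation numbers are different, the differences are unbounded almost everywhere. -/
theorem big_ae [IsProbabilityMeasure m] (erg : Ergodic S.T m)
    (per : ∀ x y, S.F x (y + 1) = S.F x y + 1) {a b : ℝ} (hab : a ≤ b)
    (h : ¬ S.Locked m a b) : ∀ᵐ x ∂m, x ∈ Big S a b := by
  -- some set of large differences has positive measure
  have h1 : ∃ n : ℕ, m {x | 2 ≤ S.dif a b n x} ≠ 0 := by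
    by_contra hcon
    push Not at hcon
    apply h
    have h2 : ∀ᵐ x ∂m, ∀ n : ℕ, S.dif a b n x < 2 := by
      rw [ae_all_iff]
      intro n
      rw [ae_iff]
      simpa only [not_lt] using hcon n
    filter_upwards [h2] with x hx
    refine squeeze_zero (fun n => div_nonneg (S.dif_nonneg per hab n x) (Nat.cast_nonneg n))
      (fun n => div_le_div_of_nonneg_right (hx n).le (Nat.cast_nonneg n)) ?_
    exact tendsto_const_div_atTop_nhds_zero_nat 2
  obtain ⟨n, hn⟩ := h1
  set E : Set X := {x | 2 ≤ S.dif a b n x} with hE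
  have mE : MeasurableSet E := measurableSet_le measurable_const (S.dif_meas a b n)
  have hTn : MeasurePreserving (S.T^[n]) m m := erg.toMeasurePreserving.iterate n
  have hrec := hTn.conservative.ae_mem_imp_frequently_image_mem mE.nullMeasurableSet
  have hEB : ∀ᵐ x ∂m, x ∈ E → x ∈ Big S a b := by
    filter_upwards [hrec] with x hx hxE K
    have hx' := hx hxE
    rw [Nat.frequently_atTop_iff_infinite] at hx'
    obtain ⟨s, hs, hsc⟩ := hx'.exists_subset_card_eq K
    obtain ⟨N, hN⟩ := s.exists_nat_subset_range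
    refine ⟨N * n, le_trans ?_ (S.dif_count per hab n N x)⟩
    rw [← hsc]
    have h3 : (s.card : ℝ) = ∑ i ∈ s, E.indicator (fun _ => (1 : ℝ)) (S.T^[i * n] x) := by
      rw [Finset.card_eq_sum_ones]
      push_cast
      refine Finset.sum_congr rfl fun i hi => ?_
      have h4 : (S.T^[n])^[i] x ∈ E := hs hi
      rw [← Function.iterate_mul, mul_comm] at h4
      rw [indicator_of_mem h4]
    rw [h3]
    refine Finset.sum_le_sum_of_subset_of_nonneg hN fun i _ _ => ?_
    exact indicator_nonneg (fun _ _ => zero_le_one) _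
  have hBpos : m (Big S a b) ≠ 0 := by
    intro h0
    apply hn
    refine measure_mono_null_ae ?_ h0
    exact hEB
  have h5 := erg.ae_empty_or_univ_of_preimage_ae_le (big_meas S a b).nullMeasurableSet
    (Filter.Eventually.of_forall (big_inv S per hab))
  rcases h5 with h5 | h5
  · exact absurd (by rw [measure_congr h5, measure_empty]) hBpos
  · filter_upwards [h5] with x hx
    have h6 : (Big S a b) x = univ x := hx
    have h7 : (Big S a b) x := h6 ▸ trivial
    exact h7

end Growth

section Transitive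

/-- a homeomorphism which moves every open set into every open set has a dense forward orbit -/
theorem exists_dense {Z : Type*} [MetricSpace Z] [CompactSpace Z] [Nonempty Z] (g : Z ≃ₜ Z)
    (h : ∀ U V : Set Z, IsOpen U → IsOpen V → U.Nonempty → V.Nonempty →
      ∃ n : ℕ, ∃ p ∈ U, g^[n] p ∈ V) : ∃ p : Z, Dense (range fun n : ℕ => g^[n] p) := by
  have hb := TopologicalSpace.isBasis_countableBasis Z
  have hc := TopologicalSpace.countable_countableBasis Z
  let W : {V : Set Z // V ∈ TopologicalSpace.countableBasis Z} → Set Z :=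
    fun V => ⋃ n : ℕ, (g^[n]) ⁻¹' V.1
  have : Countable {V : Set Z // V ∈ TopologicalSpace.countableBasis Z} := hc.to_subtype
  have hWo : ∀ V, IsOpen (W V) := fun V =>
    isOpen_iUnion fun n => (hb.isOpen V.2).preimage (g.continuous.iterate n)
  have hne : ∀ V : {V : Set Z // V ∈ TopologicalSpace.countableBasis Z}, V.1.Nonempty := fun V =>
    TopologicalSpace.nonempty_of_mem_countableBasis V.2
  have hWd : ∀ V, Dense (W V) := by
    intro V
    rw [dense_iff_inter_open]
    intro U hU hUne
    obtain ⟨n, p, hp, hpn⟩ := h U V.1 hU (hb.isOpen V.2) hUne (hne V)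
    exact ⟨p, hp, mem_iUnion.2 ⟨n, hpn⟩⟩
  obtain ⟨p, hp⟩ := (dense_iInter_of_isOpen hWo hWd).nonempty
  refine ⟨p, ?_⟩
  rw [dense_iff_inter_open]
  intro U hU ⟨q, hq⟩
  obtain ⟨V, hV, hqV, hVU⟩ := hb.exists_subset_of_mem_open hq hU
  obtain ⟨n, hn⟩ := mem_iUnion.1 (mem_iInter.1 hp ⟨V, hV⟩)
  exact ⟨g^[n] p, hVU hn, n, rfl⟩

/-- a transitive homeomorphism has one attractor, the whole space -/
theorem finite_of_dense {Z : Type*} [TopologicalSpace Z] [MeasurableSpace Z] (μ : Measure Z)
    (hμ : μ ≠ 0) (g : Z ≃ₜ Z) (h : ∃ p : Z, Dense (range fun n : ℕ => g^[n] p)) :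
    FiniteAttractors μ g := by
  refine ⟨1, fun _ => univ, fun _ => ⟨?_, ?_, ?_⟩, ?_⟩
  · rw [image_univ]; exact g.surjective.range_eq
  · obtain ⟨p, hp⟩ := h
    exact ⟨p, mem_univ _, by rw [hp.closure_eq]⟩
  · have : {p | omegaLim g p ⊆ univ} = univ := by ext; simp
    rw [this]
    exact pos_iff_ne_zero.2 (by rwa [Ne, Measure.measure_univ_eq_zero])
  · have : {p | ∀ i : Fin 1, ¬ omegaLim g p ⊆ univ} = ∅ := by
      ext p
      simp
    rw [this, measure_empty]

end Transitive

end Pool.Agent.Y318.DR
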