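import Pool.Agent.Y318.DR.Main

/-! # The parameters without mode-locking -/

set_option autoImplicit false

open Set Filter Topology MeasureTheory

namespace Pool.Agent.Y318.DR

open Pool.Agent.H728R2.OS Pool.Agent.H728R2.FA Pool.Agent.TH525.PF

variable {B : Type*} [MetricSpace B] [CompactSpace B] [MeasurableSpace B] [BorelSpace B]
variable {m : Measure B} [IsProbabilityMeasure m]

omit [CompactSpace B] in
/-- almost every orbit visits a given open set infinitely often -/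
theorem visits (T : B ≃ₜ B) (erg : Ergodic T m) {V : Set B} (hV : IsOpen V) (hm : m V ≠ 0) :
    ∀ᵐ x ∂m, ∀ N : ℕ, ∃ n : ℕ, N ≤ n ∧ T^[n] x ∈ V := by
  set A : Set B := {x | ∀ N : ℕ, ∃ n : ℕ, N ≤ n ∧ T^[n] x ∈ V} with hA
  have hTm : Measurable T := T.measurable
  have mA : MeasurableSet A := by
    have : A = ⋂ N : ℕ, ⋃ n : ℕ, ⋃ _ : N ≤ n, (T^[n]) ⁻¹' V := by
      ext x; simp [hA]
    rw [this]
    exact MeasurableSet.iInter fun N => MeasurableSet.iUnion fun n => MeasurableSet.iUnion fun _ =>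
      (hTm.iterate n) hV.measurableSet
  have hinv : T ⁻¹' A ⊆ A := by
    intro x hx N
    obtain ⟨n, hn, h⟩ := hx N
    exact ⟨n + 1, by omega, by rwa [Function.iterate_succ_apply]⟩
  have hrec := erg.toMeasurePreserving.conservative.ae_mem_imp_frequently_image_mem
    hV.measurableSet.nullMeasurableSet
  have hpos : m A ≠ 0 := by
    intro h0
    apply hm
    refine measure_mono_null_ae ?_ h0
    filter_upwards [hrec] with x hx hxV N
    obtain ⟨n, hn, h⟩ := (frequently_atTop.1 (hx hxV)) N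
    exact ⟨n, hn, h⟩
  rcases erg.ae_empty_or_univ_of_preimage_ae_le mA.nullMeasurableSet
    (Filter.Eventually.of_forall hinv) with h5 | h5
  · exact absurd (by rw [measure_congr h5, measure_empty]) hpos
  · filter_upwards [h5] with x hx
    have h6 : A x = univ x := hx
    have h7 : A x := h6 ▸ trivial
    exact h7

omit [MetricSpace B] [CompactSpace B] [BorelSpace B] in
theorem it_cont (S : Sys B) (n : ℕ) (x : B) (y : ℝ) : Continuous fun θ : ℝ => (S.add θ).it n x y := by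
  induction n with
  | zero => exact continuous_const
  | succ n ih =>
    simp only [Sys.it_succ, Sys.add_F, Sys.add_T]
    exact ((S.cont _).comp ih).add continuous_id

omit [CompactSpace B] [MeasurableSpace B] [BorelSpace B] in
theorem iter_cont (f : (B × Circ) ≃ₜ (B × Circ)) (n : ℕ) (p : B × Circ) :
    Continuous fun θ : ℝ => (rotated f θ)^[n] p := by
  induction n with
  | zero => exact continuous_const
  | succ n ih =>
    have h : (fun θ : ℝ => (rotated f θ)^[n + 1] p) = fun θ : ℝ =>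
        ((f ((rotated f θ)^[n] p)).1, (f ((rotated f θ)^[n] p)).2 + (θ : UnitAddCircle)) := by
      funext θ
      rw [Function.iterate_succ_apply']
      rfl
    rw [h]
    have h1 : Continuous fun θ : ℝ => f ((rotated f θ)^[n] p) := f.continuous.comp ih
    exact (continuous_fst.comp h1).prodMk
      ((continuous_snd.comp h1).add (AddCircle.continuous_mk' 1))

theorem exists_move (T : B ≃ₜ B) (erg : Ergodic T m) (f : (B × Circ) ≃ₜ (B × Circ))
    {F : B → ℝ → ℝ} (hF : FibreLift T f F) (hopen : ∀ W : Set B, IsOpen W → W.Nonempty → m W ≠ 0)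
    {θ₀ : ℝ} (hθ : ¬ ModeLocked m T F θ₀) {δ : ℝ} (hδ : 0 < δ) {U V : Set (B × Circ)}
    (hU : IsOpen U) (hV : IsOpen V) (hUn : U.Nonempty) (hVn : V.Nonempty) :
    ∃ θ : ℝ, |θ - θ₀| < δ ∧ ∃ n : ℕ, ∃ p ∈ U, (rotated f θ)^[n] p ∈ V := by
  obtain ⟨S, hT, rfl⟩ := exists_sys T hF
  have hTT : (S.T : B → B) = T := funext hT
  have ergS : Ergodic S.T m := by rw [hTT]; exact erg
  have per := hF.degree
  set a : ℝ := θ₀ - δ / 2 with ha
  set b : ℝ := θ₀ + δ / 2 with hb
  have hab : a ≤ b := by rw [ha, hb]; linarith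
  have hnl : ¬ S.Locked m a b := by
    intro h
    apply hθ
    refine ⟨δ / 2, by linarith, ?_⟩
    filter_upwards [h] with x hx
    refine hx.congr fun n => ?_
    rw [orb_eq S T hT, orb_eq S T hT]
    rfl
  have hbig := big_ae S ergS per hab hnl
  obtain ⟨⟨x1, y1⟩, hxy⟩ := hUn
  obtain ⟨⟨x2, v⟩, hxv⟩ := hVn
  obtain ⟨U1, U2, hU1, hU2, hxU, hyU, hUU⟩ := isOpen_prod_iff.1 hU x1 y1 hxy
  obtain ⟨V1, V2, hV1, hV2, hxV, hvV, hVV⟩ := isOpen_prod_iff.1 hV x2 v hxv
  have hvis := visits T erg hV1 (hopen V1 hV1 ⟨x2, hxV⟩)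
  obtain ⟨x, hxU1, hxb, hxvis⟩ : ∃ x ∈ U1, x ∈ Big S a b ∧ ∀ N : ℕ, ∃ n : ℕ, N ≤ n ∧ T^[n] x ∈ V1 := by
    by_contra hcon
    push Not at hcon
    apply hopen U1 hU1 ⟨x1, hxU⟩
    have h1 := hbig.and hvis
    rw [ae_iff] at h1
    refine measure_mono_null ?_ h1
    intro x hx hcon2
    obtain ⟨N, hN⟩ := hcon x hx hcon2.1
    obtain ⟨n, hn, hn2⟩ := hcon2.2 N
    exact hN n hn hn2
  obtain ⟨N, hN⟩ := hxb 3
  obtain ⟨n, hn, hTn⟩ := hxvis N
  have hdif := dif_mono S per hab 3 hn x hN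
  obtain ⟨y0, rfl⟩ := QuotientAddGroup.mk_surjective y1
  obtain ⟨v0, rfl⟩ := QuotientAddGroup.mk_surjective v
  have hlow := S.dif_lower per a b n x y0
  push_cast at hdif
  have hgap : (S.add a).it n x y0 + 2 ≤ (S.add b).it n x y0 := by linarith
  set k : ℤ := ⌈(S.add a).it n x y0 - v0⌉ with hk
  have hk1 : (S.add a).it n x y0 ≤ v0 + k := by
    have := Int.le_ceil ((S.add a).it n x y0 - v0)
    rw [← hk] at this
    linarith
  have hk2 : v0 + k ≤ (S.add b).it n x y0 := by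
    have := Int.ceil_lt_add_one ((S.add a).it n x y0 - v0)
    rw [← hk] at this
    linarith
  obtain ⟨θ, hθ1, hθ2⟩ := intermediate_value_Icc hab (it_cont S n x y0).continuousOn
    (show v0 + k ∈ Icc ((S.add a).it n x y0) ((S.add b).it n x y0) from ⟨hk1, hk2⟩)
  refine ⟨θ, ?_, n, (x, (y0 : UnitAddCircle)), hUU ⟨hxU1, hyU⟩, ?_⟩
  · rw [abs_lt]
    constructor
    · have := hθ1.1; rw [ha] at this; linarith
    · have := hθ1.2; rw [hb] at this; linarith
  · have hlift : ∀ (x : B) (y : ℝ), rotated f θ (x, (y : UnitAddCircle)) =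
        (T x, ((S.add θ).F x y : UnitAddCircle)) := by
      intro x y
      have := hF.lift x y
      show ((f (x, (y : UnitAddCircle))).1, (f (x, (y : UnitAddCircle))).2 + (θ : UnitAddCircle)) = _
      rw [this, Sys.add_F, AddCircle.coe_add]
    have h1 := iter_lift (S.add θ) T (fun x => hT x) (rotated f θ) hlift n x y0
    have h2 : ((rotated f θ : (B × Circ) → (B × Circ))^[n]) (x, (y0 : UnitAddCircle)) =
        (T^[n] x, (v0 : UnitAddCircle)) := by
      rw [h1]
      have h3 : (S.add θ).it n x y0 = v0 + k := hθ2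
      rw [h3, AddCircle.coe_add]
      have h4 : (((k : ℤ) : ℝ) : UnitAddCircle) = 0 := by
        have := AddCircle.coe_eq_zero_iff (1 : ℝ) (x := (k : ℝ))
        exact this.2 ⟨k, by simp⟩
      rw [h4, add_zero]
    show ((rotated f θ : (B × Circ) → (B × Circ))^[n]) (x, (y0 : UnitAddCircle)) ∈ V
    rw [h2]
    exact hVV ⟨hTn, hvV⟩

/-- In an interval without mode-locking the transitive parameters are dense. -/
theorem exists_trans (T : B ≃ₜ B) (erg : Ergodic T m) (f : (B × Circ) ≃ₜ (B × Circ))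
    {F : B → ℝ → ℝ} (hF : FibreLift T f F) (hopen : ∀ W : Set B, IsOpen W → W.Nonempty → m W ≠ 0)
    {a b : ℝ} (hab : a < b) (hno : ∀ θ ∈ Ioo a b, ¬ ModeLocked m T F θ) :
    ∃ θ ∈ Ioo a b, ∃ p : B × Circ, Dense (range fun n : ℕ => (rotated f θ)^[n] p) := by
  have : Nonempty B := by
    by_contra hne
    rw [not_nonempty_iff] at hne
    have h1 : m univ = 1 := measure_univ
    rw [univ_eq_empty_iff.2 hne, measure_empty] at h1
    exact zero_ne_one h1
  let C := {V : Set (B × Circ) // V ∈ TopologicalSpace.countableBasis (B × Circ)}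
  have hb := TopologicalSpace.isBasis_countableBasis (B × Circ)
  have : Countable C := (TopologicalSpace.countable_countableBasis (B × Circ)).to_subtype
  let O : C × C → Set ℝ := fun q =>
    (⋃ n : ℕ, ⋃ p ∈ q.1.1, {θ | (rotated f θ)^[n] p ∈ q.2.1}) ∪ (Icc a b)ᶜ
  have hOo : ∀ q, IsOpen (O q) := by
    intro q
    refine IsOpen.union ?_ isClosed_Icc.isOpen_compl
    exact isOpen_iUnion fun n => isOpen_biUnion fun p _ =>
      (hb.isOpen q.2.2).preimage (iter_cont f n p)
  have hOd : ∀ q, Dense (O q) := by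
    intro q
    rw [Metric.dense_iff]
    intro θ₁ r hr
    by_cases hθ₁ : θ₁ ∈ Icc a b
    · -- a point of the open interval near `θ₁`
      obtain ⟨θ₀, h1, h2⟩ : ∃ θ₀ ∈ Ioo a b, |θ₀ - θ₁| < r := by
        have hcl : θ₁ ∈ closure (Ioo a b) := by rw [closure_Ioo hab.ne]; exact hθ₁
        obtain ⟨θ₀, h1, h2⟩ := Metric.mem_closure_iff.1 hcl r hr
        exact ⟨θ₀, h1, by rwa [Real.dist_eq, abs_sub_comm] at h2⟩
      have hδ : 0 < r - |θ₀ - θ₁| := by linarith
      obtain ⟨θ, h3, n, p, hp, h4⟩ := exists_move T erg f hF hopen (hno θ₀ h1) hδ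
        (hb.isOpen q.1.2) (hb.isOpen q.2.2)
        (TopologicalSpace.nonempty_of_mem_countableBasis q.1.2)
        (TopologicalSpace.nonempty_of_mem_countableBasis q.2.2)
      refine ⟨θ, ?_, Or.inl (mem_iUnion.2 ⟨n, mem_iUnion₂.2 ⟨p, hp, h4⟩⟩)⟩
      rw [Metric.mem_ball, Real.dist_eq]
      have := abs_sub_le θ θ₀ θ₁
      linarith
    · exact ⟨θ₁, Metric.mem_ball_self hr, Or.inr hθ₁⟩
  have hD := dense_iInter_of_isOpen hOo hOd
  obtain ⟨θ, hθ, hθO⟩ := hD.inter_open_nonempty (Ioo a b) isOpen_Ioo (nonempty_Ioo.2 hab)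
  refine ⟨θ, hθ, exists_dense (rotated f θ) ?_⟩
  intro U V hU hV ⟨u, hu⟩ ⟨v, hv⟩
  obtain ⟨U', hU', huU', hUU⟩ := hb.exists_subset_of_mem_open hu hU
  obtain ⟨V', hV', hvV', hVV⟩ := hb.exists_subset_of_mem_open hv hV
  rcases mem_iInter.1 hθO (⟨U', hU'⟩, ⟨V', hV'⟩) with h | h
  · obtain ⟨n, h⟩ := mem_iUnion.1 h
    obtain ⟨p, hp, h⟩ := mem_iUnion₂.1 h
    exact ⟨n, p, hUU hp, hVV h⟩
  · exact absurd (Ioo_subset_Icc_self hθ) h

/-- **Density of the parameters with finitely many attractors.** -/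
theorem main (T : B ≃ₜ B) (erg : Ergodic T m) (f : (B × Circ) ≃ₜ (B × Circ))
    {F : B → ℝ → ℝ} (hF : FibreLift T f F) (hopen : ∀ W : Set B, IsOpen W → W.Nonempty → m W ≠ 0)
    (μ : Measure (B × Circ)) (hμ : μ ≪ m.prod volume) (hμ' : m.prod volume ≪ μ)
    {a b : ℝ} (hab : a < b) : ∃ θ ∈ Ioo a b, FiniteAttractors μ (rotated f θ) := by
  by_cases hno : ∀ θ ∈ Ioo a b, ¬ ModeLocked m T F θ
  · obtain ⟨θ, hθ, h⟩ := exists_trans T erg f hF hopen hab hno
    refine ⟨θ, hθ, finite_of_dense μ ?_ _ h⟩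
    rintro rfl
    have h1 : m.prod (volume : Measure Circ) univ = 0 := hμ' (by simp)
    rw [← univ_prod_univ, Measure.prod_prod, measure_univ, one_mul] at h1
    have h2 : (volume : Measure Circ) univ ≠ 0 := by
      rw [Ne, Measure.measure_univ_eq_zero]
      exact NeZero.ne _
    exact h2 h1
  · push Not at hno
    obtain ⟨θ₁, hθ₁, ε, hε, hsame⟩ := hno
    have hae := main_interval T erg f hF μ hμ hμ' hsame
    have hlt : max a (θ₁ - ε) < min b (θ₁ + ε) := by
      rw [max_lt_iff, lt_min_iff, lt_min_iff]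
      exact ⟨⟨hab, by linarith [hθ₁.1]⟩, by linarith [hθ₁.2], by linarith⟩
    by_contra hcon
    push Not at hcon
    have h1 : volume (Ioo (max a (θ₁ - ε)) (min b (θ₁ + ε))) = 0 := by
      rw [ae_iff] at hae
      refine measure_mono_null ?_ hae
      intro θ hθ h2
      obtain ⟨h3, h4⟩ := hθ
      rw [max_lt_iff] at h3
      rw [lt_min_iff] at h4
      exact hcon θ ⟨h3.1, h4.1⟩ (h2 h3.2.le h4.2.le)
    rw [Real.volume_Ioo, ENNReal.ofReal_eq_zero] at h1
    linarith

end Pool.Agent.Y318.DR
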