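import Pool.Agent.Y318.DR.Par
import Pool.Agent.H728R2.OS.S.COV
import Pool.Agent.H728R2.FA.Final

/-! # Skew products of tori with circle fibres -/

set_option autoImplicit false

open Set Filter Topology MeasureTheory

namespace Pool.Agent.Y318.DR

open Pool.Agent.H728R2.OS Pool.Agent.H728R2.FA Pool.Agent.TH525.PF

/-- `f (x, y) = (T x, f_x y)`, and every `f_x` is an orientation-preserving homeomorphism of the
circle: it has a continuous strictly increasing lift `G` with `G (y + 1) = G y + 1`. -/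
def IsCircleSkew {d : ℕ} (T : Torus d → Torus d) (f : Torus d × Circ → Torus d × Circ) : Prop :=
  (∀ p, (f p).1 = T p.1) ∧ ∀ x, ∃ G : ℝ → ℝ, Continuous G ∧ StrictMono G ∧
    (∀ y, G (y + 1) = G y + 1) ∧ ∀ y : ℝ, (f (x, (y : UnitAddCircle))).2 = (G y : UnitAddCircle)

/-- the representative of a point of the torus -/
noncomputable def repT {d : ℕ} (x : Torus d) : Fin d → ℝ := fun i => rep (x i)

theorem repT_meas {d : ℕ} : Measurable (repT (d := d)) :=
  measurable_pi_lambda _ fun i => rep_meas.comp (measurable_pi_apply i)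

theorem toTorus_repT {d : ℕ} (x : Torus d) : toTorus (repT x) = x :=
  funext fun i => rep_coe (x i)

/-- two continuous lifts of a circle map differ by a constant -/
theorem circ_lift {F G : ℝ → ℝ} (hF : Continuous F) (hG : Continuous G)
    (h : ∀ y, (F y : UnitAddCircle) = (G y : UnitAddCircle)) : ∃ c : ℝ, ∀ y, F y = G y + c := by
  have h1 : ∀ y, ∃ k : ℤ, F y - G y = k := by
    intro y
    have h2 : ((F y - G y : ℝ) : UnitAddCircle) = 0 := by
      rw [AddCircle.coe_sub, h y, sub_self]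
    rw [AddCircle.coe_eq_zero_iff] at h2
    obtain ⟨k, hk⟩ := h2
    exact ⟨k, by rw [← hk]; simp⟩
  choose k hk using h1
  have hkc : Continuous k := by
    rw [Int.isClosedEmbedding_coe_real.isEmbedding.continuous_iff]
    have : ((fun n : ℤ => (n : ℝ)) ∘ k) = fun y => F y - G y := by
      funext y; exact (hk y).symm
    rw [this]
    exact hF.sub hG
  refine ⟨k 0, fun y => ?_⟩
  have : k y = k 0 := PreconnectedSpace.constant inferInstance hkc
  have h3 := hk y
  rw [this] at h3
  linarith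

theorem exists_fibreLift {d : ℕ} {r : ℕ∞} (hr : 1 ≤ r) (T : Torus d ≃ₜ Torus d)
    {f : (Torus d × Circ) ≃ₜ (Torus d × Circ)} (hf : IsDiffeo toTorus1 r f)
    (hs : IsCircleSkew T f) : ∃ F : Torus d → ℝ → ℝ, FibreLift T f F := by
  obtain ⟨⟨F₀, hF₀, lF⟩, G₀, hG₀, lG⟩ := hf
  have hr' : ((1 : ℕ∞) : WithTop ℕ∞) ≤ ((r : ℕ∞) : WithTop ℕ∞) := by exact_mod_cast hr
  have hF1 : ContDiff ℝ 1 F₀ := hF₀.of_le hr'
  have hG1 : ContDiff ℝ 1 G₀ := hG₀.of_le hr'
  have hcov := isCov_toTorus1 d
  -- the fibre lift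
  set F : Torus d → ℝ → ℝ := fun x y => (F₀ (repT x, y)).2 with hF
  have hFc : ∀ x, Continuous (F x) := fun x =>
    continuous_snd.comp (hF₀.continuous.comp (continuous_const.prodMk continuous_id))
  have hlift : ∀ (x : Torus d) (y : ℝ), f (x, (y : UnitAddCircle)) = (T x, (F x y : UnitAddCircle)) := by
    intro x y
    have h1 := lF (repT x, y)
    have h2 : toTorus1 (repT x, y) = (x, (y : UnitAddCircle)) := Prod.ext (toTorus_repT x) rfl
    rw [h2] at h1
    refine Prod.ext (hs.1 (x, (y : UnitAddCircle))) ?_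
    rw [← h1]
    rfl
  -- monotonicity and degree
  have hG : ∀ x, StrictMono (F x) ∧ ∀ y, F x (y + 1) = F x y + 1 := by
    intro x
    obtain ⟨G, hGc, hGm, hGd, hGl⟩ := hs.2 x
    obtain ⟨c, hc⟩ := circ_lift (hFc x) hGc (fun y => by rw [← hGl y, hlift x y])
    refine ⟨fun a b hab => ?_, fun y => ?_⟩
    · rw [hc, hc]; exact add_lt_add_left (hGm hab) c
    · rw [hc, hc, hGd]; ring
  -- the derivative in the fibre
  set D : (Fin d → ℝ) × ℝ → ℝ := fun z => (fderiv ℝ F₀ z (0, 1)).2 with hD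
  have hDc : Continuous D :=
    continuous_snd.comp ((hF1.continuous_fderiv one_ne_zero).clm_apply continuous_const)
  have hder : ∀ x y, HasDerivAt (F x) (D (repT x, y)) y := by
    intro x y
    have h1 : HasFDerivAt F₀ (fderiv ℝ F₀ (repT x, y)) (repT x, y) :=
      ((hF1.differentiable one_ne_zero) _).hasFDerivAt
    have h2 : HasDerivAt (fun t : ℝ => (repT x, t)) ((0 : Fin d → ℝ), (1 : ℝ)) y :=
      (hasDerivAt_const y (repT x)).prodMk (hasDerivAt_id y)
    have h3 := h1.comp_hasDerivAt y h2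
    exact h3.snd
  -- the derivative does not vanish
  have hfst : ∀ z : (Fin d → ℝ) × ℝ, (fderiv ℝ F₀ z (0, 1)).1 = 0 := by
    intro z
    obtain ⟨x, y⟩ := z
    have hc : ∃ c : Fin d → ℝ, ∀ t : ℝ, (F₀ (x, t)).1 = c := by
      obtain ⟨Γ, hΓ, hper⟩ := (isCov_toTorus d).period
      have h1 : ∀ t, (F₀ (x, t)).1 - (F₀ (x, 0)).1 ∈ Γ := by
        intro t
        rw [← hper]
        have h2 : ∀ t : ℝ, toTorus (F₀ (x, t)).1 = T (toTorus x) := by
          intro t
          have h3 := lF (x, t)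
          have h4 : (toTorus1 (F₀ (x, t))).1 = (f (toTorus1 (x, t))).1 := by rw [h3]
          rw [hs.1] at h4
          exact h4
        rw [h2, h2]
      let φ : ℝ → Γ := fun t => ⟨(F₀ (x, t)).1 - (F₀ (x, 0)).1, h1 t⟩
      have hφ : Continuous φ := Continuous.subtype_mk
        ((continuous_fst.comp (hF₀.continuous.comp (continuous_const.prodMk continuous_id))).sub
          continuous_const) _
      refine ⟨(F₀ (x, 0)).1, fun t => ?_⟩
      have h5 : φ t = φ 0 := PreconnectedSpace.constant inferInstance hφ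
      have h6 : (F₀ (x, t)).1 - (F₀ (x, 0)).1 = (F₀ (x, 0)).1 - (F₀ (x, 0)).1 :=
        congrArg Subtype.val h5
      rw [sub_self, sub_eq_zero] at h6
      exact h6
    obtain ⟨c, hc⟩ := hc
    have h1 : HasFDerivAt F₀ (fderiv ℝ F₀ (x, y)) (x, y) :=
      ((hF1.differentiable one_ne_zero) _).hasFDerivAt
    have h2 : HasDerivAt (fun t : ℝ => (x, t)) ((0 : Fin d → ℝ), (1 : ℝ)) y :=
      (hasDerivAt_const y x).prodMk (hasDerivAt_id y)
    have h3 : HasDerivAt (fun t : ℝ => (F₀ (x, t)).1) (fderiv ℝ F₀ (x, y) (0, 1)).1 y :=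
      ((ContinuousLinearMap.fst ℝ (Fin d → ℝ) ℝ).hasFDerivAt (x := F₀ (x, y))).comp_hasDerivAt
        (f := fun t : ℝ => F₀ (x, t)) y (h1.comp_hasDerivAt y h2)
    have h4 : HasDerivAt (fun t : ℝ => (F₀ (x, t)).1) (0 : Fin d → ℝ) y := by
      have : (fun t : ℝ => (F₀ (x, t)).1) = fun _ => c := funext hc
      rw [this]
      exact hasDerivAt_const y c
    exact h3.unique h4
  have hinj : ∀ z v, fderiv ℝ F₀ z v = 0 → v = 0 := by
    intro z v hv
    obtain ⟨c, hc⟩ := lift_unique hcov (F := fun z => z) (G := fun z => G₀ (F₀ z)) continuous_id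
      (hG₀.continuous.comp hF₀.continuous) (fun z => by
        rw [lG, lF, Homeomorph.symm_apply_apply])
    have h1 : HasFDerivAt F₀ (fderiv ℝ F₀ z) z := ((hF1.differentiable one_ne_zero) _).hasFDerivAt
    have h2 : HasFDerivAt G₀ (fderiv ℝ G₀ (F₀ z)) (F₀ z) :=
      ((hG1.differentiable one_ne_zero) _).hasFDerivAt
    have h3 := h2.comp z h1
    have h4 : HasFDerivAt (G₀ ∘ F₀) (ContinuousLinearMap.id ℝ _) z := by
      have : (G₀ ∘ F₀) = fun z => z + c := funext hc
      rw [this]
      exact (hasFDerivAt_id z).add_const c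
    have h5 := h3.unique h4
    have h6 := congrArg (fun L : ((Fin d → ℝ) × ℝ) →L[ℝ] ((Fin d → ℝ) × ℝ) => L v) h5
    simp only [ContinuousLinearMap.comp_apply, ContinuousLinearMap.id_apply] at h6
    rw [← h6, hv, map_zero]
  have hpos : ∀ x y, 0 < D (repT x, y) := by
    intro x y
    have h0 : 0 ≤ D (repT x, y) := by
      rw [← (hder x y).deriv]
      exact (hG x).1.monotone.deriv_nonneg
    refine lt_of_le_of_ne h0 (Ne.symm ?_)
    intro h1
    have h2 : fderiv ℝ F₀ (repT x, y) (0, 1) = 0 := Prod.ext (hfst _) h1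
    have h3 := hinj _ _ h2
    have h4 := congrArg Prod.snd h3
    exact one_ne_zero h4
  refine ⟨F, ⟨?_, hlift, fun x y => (hG x).2 y, fun x y => D (repT x, y), ?_, fun x y =>
    ⟨hder x y, hpos x y⟩⟩⟩
  · exact measurable_snd.comp (hF₀.continuous.measurable.comp
      ((repT_meas.comp measurable_fst).prodMk measurable_snd))
  · have hq : IsOpenQuotientMap (Prod.map (toTorus (d := d)) (id : ℝ → ℝ)) :=
      (isCov_toTorus d).quot.prodMap IsOpenQuotientMap.id
    rw [hq.isQuotientMap.continuous_iff]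
    have : (Function.uncurry fun (x : Torus d) (y : ℝ) => D (repT x, y)) ∘
        (Prod.map (toTorus (d := d)) (id : ℝ → ℝ)) = D := by
      funext z
      show D (repT (toTorus z.1), z.2) = D z
      have h1 : toTorus1 (repT (toTorus z.1), z.2) = toTorus1 z :=
        Prod.ext (show toTorus (repT (toTorus z.1)) = toTorus z.1 from toTorus_repT _) rfl
      have h2 := fderiv_lift hcov hF₀.continuous hF₀.continuous f lF lF _ _ h1
      rw [hD]
      simp only
      rw [h2]
    rw [this]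
    exact hDc

theorem isCircleSkew_rotated {d : ℕ} {T : Torus d → Torus d}
    {f : (Torus d × Circ) ≃ₜ (Torus d × Circ)} (hs : IsCircleSkew T f) (θ : ℝ) :
    IsCircleSkew T (rotated f θ) := by
  refine ⟨fun p => hs.1 p, fun x => ?_⟩
  obtain ⟨G, h1, h2, h3, h4⟩ := hs.2 x
  refine ⟨fun y => G y + θ, h1.add continuous_const, fun a b hab => ?_, fun y => ?_, fun y => ?_⟩
  · exact add_lt_add_left (h2 hab) θ
  · simp only [h3]; ring
  · show (f (x, (y : UnitAddCircle))).2 + (θ : UnitAddCircle) = ((G y + θ : ℝ) : UnitAddCircle)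
    rw [h4, AddCircle.coe_add]

/-- **Density of the finitude of attractors, for skew products of tori with circle fibres.** -/
theorem torus {d : ℕ} {r : ℕ∞} (hr : 1 ≤ r) (T : Torus d ≃ₜ Torus d) (m : Measure (Torus d))
    [IsProbabilityMeasure m] (hm1 : m ≪ volume) (hm2 : volume ≪ m) (erg : Ergodic T m)
    (f : (Torus d × Circ) ≃ₜ (Torus d × Circ)) (hf : IsDiffeo toTorus1 r f)
    (hs : IsCircleSkew T f) (k : ℕ) (hk : (k : ℕ∞) ≤ r) (ε : ℝ) (hε : 0 < ε) :
    ∃ θ : ℝ, |θ| < ε ∧ IsDiffeo toTorus1 r (rotated f θ) ∧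
      CkClose toTorus1 k ε f (rotated f θ) ∧ IsCircleSkew T (rotated f θ) ∧
      FiniteAttractors (volume : Measure (Torus d × Circ)) (rotated f θ) := by
  obtain ⟨F, hF⟩ := exists_fibreLift hr T hf hs
  have hopen : ∀ W : Set (Torus d), IsOpen W → W.Nonempty → m W ≠ 0 := by
    intro W hW hne h0
    exact (hW.measure_pos volume hne).ne' (hm2 h0)
  have h1 : (volume : Measure (Torus d × Circ)) ≪ m.prod volume := by
    rw [Measure.volume_eq_prod]
    exact Measure.AbsolutelyContinuous.prod hm2 Measure.AbsolutelyContinuous.rfl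
  have h2 : m.prod volume ≪ (volume : Measure (Torus d × Circ)) := by
    rw [Measure.volume_eq_prod]
    exact Measure.AbsolutelyContinuous.prod hm1 Measure.AbsolutelyContinuous.rfl
  obtain ⟨θ, hθ, h⟩ := main T erg f hF hopen volume h1 h2 (a := -ε) (b := ε) (by linarith)
  have hθ' : |θ| < ε := abs_lt.2 hθ
  exact ⟨θ, hθ', isDiffeo_rotated hf θ, ckClose_rotated hf k hk θ ε hθ',
    isCircleSkew_rotated hs θ, h⟩

end Pool.Agent.Y318.DR
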